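import Pool.Agent.Whitehead.Avg
import Pool.Agent.Whitehead.Final
import Pool.Agent.Whitehead.Lit
import Pool.Agent.Whitehead.Deg
import Pool.Agent.Whitehead.MoveConn
import Pool.Agent.Whitehead.Bad
import Pool.Agent.Whitehead.Match
import Pool.Agent.Whitehead.Ratio
import Pool.Agent.Whitehead.Conn
import Pool.Agent.Whitehead.Cyc
import Pool.Agent.Whitehead.Fix
import Pool.Agent.Whitehead.FixW
import Pool.Agent.Whitehead.Master
import Pool.Agent.Whitehead.Orb
import Pool.Agent.Whitehead.Supp
import Pool.Agent.Whitehead.Switch
import Pool.Agent.Whitehead.TSum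
import Pool.Agent.Whitehead.Tp
import Pool.Agent.Whitehead.Trans
import Pool.Agent.Whitehead.Local

set_option autoImplicit false

namespace Pool.Agent.Results.MP_406c5d_co.AverageDegree

open Pool.Agent.Whitehead

/-- Q1, positive answer: there are a constant `C` and `n₀` such that for every even `n ≥ n₀` the
average degree of the unlabelled Whitehead-move graph `Γ^u_n` is at least `3 n - C`. -/
theorem result : ∃ (C : ℝ) (n₀ : ℕ), ∀ n : ℕ, n₀ ≤ n → Even n →
    3 * (n : ℝ) - C ≤ averageDegree n := by
  have hFix := fix_proof Match_proof
  have hF1 := fixW1_proof hFix Even_proof Match_proof Ratio_proof supp_proof trans_proof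
  have hF2 := fixW2_proof hFix Even_proof Match_proof Ratio_proof supp_proof trans_proof
  have hM := master_proof cyc_proof supp_proof
  have hT1 := t1_proof hF1 hM supp_proof
  have hT2 := t2_proof hF2 hM supp_proof
  have hDeg := Deg_proof local_proof local0_proof MoveConn_proof
  exact avg_of Lit_proof (FinalB_proof hT1 hT2 switch_proof hDeg Bad_proof
    (conn_proof Match_proof) Match_proof tp_proof orb_proof)

end Pool.Agent.Results.MP_406c5d_co.AverageDegree
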